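import Pool.Agent.Helper50.VD.St

/-!
# MP_22dedb_an, module P3a: kernel evaluable approximations of `log` and `arctan`
-/

open MeasureTheory Set Filter Topology
open scoped ENNReal

noncomputable section

namespace VD.M_P3a

/-- The scale, as a real number. -/
abbrev NN : ℝ := 72057594037927936

theorem ndiv_eq (a b : ℕ) : Nat.div a b = a / b := rfl

theorem div_bd (x y : ℕ) (hy : 0 < y) : |((x / y : ℕ) : ℝ) - (x : ℝ) / y| ≤ 1 := by
  have h1 : ((x / y : ℕ) : ℝ) ≤ (x : ℝ) / y := Nat.cast_div_le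
  have h2 : (x : ℝ) / y ≤ ((x / y : ℕ) : ℝ) + 1 := by
    have hy' : (0 : ℝ) < y := by exact_mod_cast hy
    rw [div_le_iff₀ hy']
    have h3 := Nat.div_add_mod x y
    have h4 := Nat.mod_lt x hy
    have h5 : x ≤ (x / y + 1) * y := by
      calc x = y * (x / y) + x % y := h3.symm
        _ ≤ y * (x / y) + y := by omega
        _ = (x / y + 1) * y := by ring
    exact_mod_cast h5
  rw [abs_le]
  constructor <;> linarith

/-- one Horner step -/
theorem horner (w A : ℕ) (a : ℝ) (hw : (w : ℝ) ≤ NN / 256) (h : |(A : ℝ) - a| ≤ 3) :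
    |((w * A / 72057594037927936 : ℕ) : ℝ) - (w : ℝ) / NN * a| ≤ 2 := by
  have h1 := div_bd (w * A) 72057594037927936 (by norm_num)
  push_cast at h1
  have h2 : |(w : ℝ) * A / 72057594037927936 - (w : ℝ) / NN * a| ≤ 1 := by
    have e : (w : ℝ) * A / 72057594037927936 - (w : ℝ) / NN * a = (w : ℝ) / NN * ((A : ℝ) - a) := by
      simp only [NN]
      ring
    rw [e, abs_mul, abs_of_nonneg (by positivity)]
    have h3 : (w : ℝ) / NN ≤ 1 / 256 := by
      rw [div_le_iff₀ (by norm_num)]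
      linarith
    calc (w : ℝ) / NN * |(A : ℝ) - a| ≤ 1 / 256 * 3 :=
          mul_le_mul h3 h (abs_nonneg _) (by norm_num)
      _ ≤ 1 := by norm_num
  have h3 := abs_add_le (((w * A / 72057594037927936 : ℕ) : ℝ) - (w : ℝ) * A / 72057594037927936)
    ((w : ℝ) * A / 72057594037927936 - (w : ℝ) / NN * a)
  have e : ((w * A / 72057594037927936 : ℕ) : ℝ) - (w : ℝ) * A / 72057594037927936 +
    ((w : ℝ) * A / 72057594037927936 - (w : ℝ) / NN * a) =
      ((w * A / 72057594037927936 : ℕ) : ℝ) - (w : ℝ) / NN * a := by ring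
  rw [e] at h3
  linarith

theorem horner_add (w A c : ℕ) (a C : ℝ) (hw : (w : ℝ) ≤ NN / 256) (h : |(A : ℝ) - a| ≤ 3)
    (hc : |(c : ℝ) - C| ≤ 1) :
    |((c + w * A / 72057594037927936 : ℕ) : ℝ) - (C + (w : ℝ) / NN * a)| ≤ 3 := by
  have h1 := horner w A a hw h
  rw [abs_le] at h1 hc ⊢
  push_cast at h1 ⊢
  constructor <;> linarith [h1.1, h1.2, hc.1, hc.2]

theorem horner_sub (w A c : ℕ) (a C : ℝ) (hw : (w : ℝ) ≤ NN / 256) (h : |(A : ℝ) - a| ≤ 3)
    (ha : a ≤ NN) (hc : |(c : ℝ) - C| ≤ 1) (hC : NN / 12 ≤ C) :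
    |((c - w * A / 72057594037927936 : ℕ) : ℝ) - (C - (w : ℝ) / NN * a)| ≤ 3 := by
  have h1 := horner w A a hw h
  have h2 : w * A / 72057594037927936 ≤ c := by
    have h3 : ((w * A / 72057594037927936 : ℕ) : ℝ) ≤ c := by
      rw [abs_le] at h1 hc
      have h4 : (w : ℝ) / NN * a ≤ NN / 256 := by
        have h5 : (w : ℝ) / NN ≤ 1 / 256 := by
          rw [div_le_iff₀ (by norm_num)]
          linarith
        have h6 : 0 ≤ (w : ℝ) / NN := by positivity
        calc (w : ℝ) / NN * a ≤ (w : ℝ) / NN * NN := mul_le_mul_of_nonneg_left ha h6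
          _ ≤ 1 / 256 * NN := mul_le_mul_of_nonneg_right h5 (by norm_num)
          _ = NN / 256 := by ring
      have h7 : NN / 256 + 3 ≤ NN / 12 := by norm_num [NN]
      linarith [h1.2, hc.1]
    exact_mod_cast h3
  rw [Nat.cast_sub h2]
  rw [abs_le] at h1 hc ⊢
  constructor <;> linarith [h1.1, h1.2, hc.1, hc.2]

/-! ### the series -/

/-- `log ((1+z)/(1-z))` -/
def fL (z : ℝ) : ℝ := Real.log (1 + z) - Real.log (1 - z)

/-- partial sum -/
def sL (z : ℝ) : ℝ := 2 * z * (1 + z ^ 2 * (1 / 3 + z ^ 2 * (1 / 5 + z ^ 2 * (1 / 7 + z ^ 2 * (1 / 9)))))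

def sA (y : ℝ) : ℝ :=
  y * (1 - y ^ 2 * (1 / 3 - y ^ 2 * (1 / 5 - y ^ 2 * (1 / 7 - y ^ 2 * (1 / 9 - y ^ 2 * (1 / 11))))))

theorem fL_sL (z : ℝ) (h0 : 0 ≤ z) (h1 : z ≤ 1 / 32) : |NN * fL z - NN * sL z| ≤ 2 / 5 := by
  have hz1 : |z| < 1 := by rw [abs_of_nonneg h0]; linarith
  have h2 := Real.hasSum_log_sub_log_of_abs_lt_one hz1
  have h3 := (hasSum_nat_add_iff' 5).2 h2
  have hsq : z ^ 2 ≤ 1 / 1024 := by nlinarith
  have hsq0 : 0 ≤ z ^ 2 := sq_nonneg z
  have hg := (hasSum_geometric_of_lt_one hsq0 (by linarith : z ^ 2 < 1)).mul_left (2 / 11 * z ^ 11)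
  have hle := hasSum_le (fun n => ?_) h3 hg
  · have hge : 0 ≤ Real.log (1 + z) - Real.log (1 - z) -
        ∑ i ∈ Finset.range 5, 2 * (1 / (2 * (i : ℝ) + 1)) * z ^ (2 * i + 1) :=
      h3.nonneg fun n => by positivity
    have hsum : ∑ i ∈ Finset.range 5, 2 * (1 / (2 * (i : ℝ) + 1)) * z ^ (2 * i + 1) = sL z := by
      simp only [Finset.sum_range_succ, Finset.sum_range_zero, sL]
      push_cast
      ring
    rw [hsum] at hle hge
    have hz11 : z ^ 11 ≤ (1 / 32) ^ 11 := pow_le_pow_left₀ h0 h1 11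
    have hinv : (1 - z ^ 2)⁻¹ ≤ 1024 / 1023 := by
      rw [inv_le_comm₀ (by linarith) (by norm_num)]
      norm_num
      linarith
    have hbd : 2 / 11 * z ^ 11 * (1 - z ^ 2)⁻¹ ≤ 2 / 11 * (1 / 32) ^ 11 * (1024 / 1023) := by
      have hinv0 : 0 ≤ (1 - z ^ 2)⁻¹ := by
        apply inv_nonneg.2
        linarith
      have hz0 : 0 ≤ 2 / 11 * z ^ 11 := by positivity
      calc 2 / 11 * z ^ 11 * (1 - z ^ 2)⁻¹ ≤ 2 / 11 * z ^ 11 * (1024 / 1023) :=
            mul_le_mul_of_nonneg_left hinv hz0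
        _ ≤ 2 / 11 * (1 / 32) ^ 11 * (1024 / 1023) := by
            refine mul_le_mul_of_nonneg_right ?_ (by norm_num)
            linarith
    have e : NN * fL z - NN * sL z = NN * (Real.log (1 + z) - Real.log (1 - z) - sL z) := by
      unfold fL
      ring
    rw [e, abs_of_nonneg (mul_nonneg (by norm_num) hge)]
    calc NN * (Real.log (1 + z) - Real.log (1 - z) - sL z)
        ≤ NN * (2 / 11 * (1 / 32) ^ 11 * (1024 / 1023)) :=
          mul_le_mul_of_nonneg_left (hle.trans hbd) (by norm_num)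
      _ ≤ 2 / 5 := by norm_num [NN]
  · -- comparison of the terms
    have e1 : z ^ (2 * (n + 5) + 1) = z ^ 11 * (z ^ 2) ^ n := by
      rw [← pow_mul, ← pow_add]
      congr 1
      ring
    rw [e1]
    have e2 : 2 * (1 / (2 * ((n + 5 : ℕ) : ℝ) + 1)) ≤ 2 / 11 := by
      push_cast
      have h4 : (11 : ℝ) ≤ 2 * ((n : ℝ) + 5) + 1 := by
        have : (0 : ℝ) ≤ n := by positivity
        linarith
      have h5 : 1 / (2 * ((n : ℝ) + 5) + 1) ≤ 1 / 11 := one_div_le_one_div_of_le (by norm_num) h4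
      linarith
    have h6 : 0 ≤ z ^ 11 * (z ^ 2) ^ n := by positivity
    calc 2 * (1 / (2 * ((n + 5 : ℕ) : ℝ) + 1)) * (z ^ 11 * (z ^ 2) ^ n)
        ≤ 2 / 11 * (z ^ 11 * (z ^ 2) ^ n) := mul_le_mul_of_nonneg_right e2 h6
      _ = 2 / 11 * z ^ 11 * (z ^ 2) ^ n := by ring

theorem arctan_sA (y : ℝ) (h0 : 0 ≤ y) (h1 : y ≤ 1 / 16) :
    |NN * Real.arctan y - NN * sA y| ≤ 5 / 4 := by
  have hy1 : ‖y‖ < 1 := by rw [Real.norm_eq_abs, abs_of_nonneg h0]; linarith
  have h2 := Real.hasSum_arctan hy1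
  have h3 := (hasSum_nat_add_iff' 6).2 h2
  have hsq : y ^ 2 ≤ 1 / 256 := by nlinarith
  have hsq0 : 0 ≤ y ^ 2 := sq_nonneg y
  have hg := (hasSum_geometric_of_lt_one hsq0 (by linarith : y ^ 2 < 1)).mul_left (1 / 13 * y ^ 13)
  have hterm : ∀ n : ℕ, |(-1) ^ (n + 6) * y ^ (2 * (n + 6) + 1) / ((2 * (n + 6) + 1 : ℕ) : ℝ)| ≤
      1 / 13 * y ^ 13 * (y ^ 2) ^ n := by
    intro n
    have e1 : y ^ (2 * (n + 6) + 1) = y ^ 13 * (y ^ 2) ^ n := by
      rw [← pow_mul, ← pow_add]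
      congr 1
      ring
    rw [e1, abs_div, abs_mul, abs_pow, abs_neg, abs_one, one_pow, one_mul,
      abs_of_nonneg (by positivity : 0 ≤ y ^ 13 * (y ^ 2) ^ n),
      abs_of_nonneg (by positivity : (0 : ℝ) ≤ ((2 * (n + 6) + 1 : ℕ) : ℝ))]
    have h4 : (13 : ℝ) ≤ ((2 * (n + 6) + 1 : ℕ) : ℝ) := by
      push_cast
      have : (0 : ℝ) ≤ n := by positivity
      linarith
    have h6 : 0 ≤ y ^ 13 * (y ^ 2) ^ n := by positivity
    rw [div_eq_mul_inv]
    calc y ^ 13 * (y ^ 2) ^ n * (((2 * (n + 6) + 1 : ℕ) : ℝ))⁻¹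
        ≤ y ^ 13 * (y ^ 2) ^ n * (13)⁻¹ :=
          mul_le_mul_of_nonneg_left (inv_anti₀ (by norm_num) h4) h6
      _ = 1 / 13 * y ^ 13 * (y ^ 2) ^ n := by ring
  have hup := hasSum_le (fun n => (abs_le.1 (hterm n)).2) h3 hg
  have hlo := hasSum_le (fun n => (abs_le.1 (hterm n)).1) hg.neg h3
  have hsum : ∑ i ∈ Finset.range 6, (-1) ^ i * y ^ (2 * i + 1) / ((2 * i + 1 : ℕ) : ℝ) = sA y := by
    simp only [Finset.sum_range_succ, Finset.sum_range_zero, sA]
    push_cast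
    ring
  rw [hsum] at hup hlo
  have hy13 : y ^ 13 ≤ (1 / 16) ^ 13 := pow_le_pow_left₀ h0 h1 13
  have hinv : (1 - y ^ 2)⁻¹ ≤ 256 / 255 := by
    rw [inv_le_comm₀ (by linarith) (by norm_num)]
    norm_num
    linarith
  have hbd : 1 / 13 * y ^ 13 * (1 - y ^ 2)⁻¹ ≤ 1 / 13 * (1 / 16) ^ 13 * (256 / 255) := by
    have hz0 : 0 ≤ 1 / 13 * y ^ 13 := by positivity
    calc 1 / 13 * y ^ 13 * (1 - y ^ 2)⁻¹ ≤ 1 / 13 * y ^ 13 * (256 / 255) :=
          mul_le_mul_of_nonneg_left hinv hz0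
      _ ≤ 1 / 13 * (1 / 16) ^ 13 * (256 / 255) := by
          refine mul_le_mul_of_nonneg_right ?_ (by norm_num)
          linarith
  have hnum : NN * (1 / 13 * (1 / 16) ^ 13 * (256 / 255)) ≤ 5 / 4 := by norm_num [NN]
  have hNN : (0 : ℝ) < NN := by norm_num
  rw [abs_le]
  constructor
  · nlinarith [hlo, hbd]
  · nlinarith [hup, hbd]

/-! ### the approximations of the series -/

theorem sq_bd (ζ : ℝ) (h0 : 0 ≤ ζ) (h1 : ζ ≤ 1 / 16) : ζ ^ 2 ≤ 1 / 256 := by nlinarith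

theorem mono_bd (ω κ : ℝ) (h0 : 0 ≤ ω) (h1 : ω ≤ 1 / 256) (k0 : 0 ≤ κ) (k1 : κ ≤ 1 / 256)
    (i j : ℕ) (hij : 1 ≤ i + j) : 0 ≤ ω ^ i * κ ^ j ∧ ω ^ i * κ ^ j ≤ 1 / 256 := by
  refine ⟨by positivity, ?_⟩
  calc ω ^ i * κ ^ j ≤ (1 / 256) ^ i * (1 / 256) ^ j :=
        mul_le_mul (pow_le_pow_left₀ h0 h1 i) (pow_le_pow_left₀ k0 k1 j) (by positivity)
          (by positivity)
    _ = (1 / 256) ^ (i + j) := (pow_add _ _ _).symm
    _ ≤ (1 / 256) ^ 1 := pow_le_pow_of_le_one (by norm_num) (by norm_num) hij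
    _ = 1 / 256 := by norm_num

theorem polyL (ω κ : ℝ) (h0 : 0 ≤ ω) (h1 : ω ≤ 1 / 256) (k0 : 0 ≤ κ) (k1 : κ ≤ 1 / 256) :
    |1 / 3 + (ω + κ) * (1 / 5) + (ω ^ 2 + ω * κ + κ ^ 2) * (1 / 7) +
      (ω ^ 3 + ω ^ 2 * κ + ω * κ ^ 2 + κ ^ 3) * (1 / 9)| ≤ 1 := by
  have a1 := mono_bd ω κ h0 h1 k0 k1 2 0 (by norm_num)
  have a2 := mono_bd ω κ h0 h1 k0 k1 1 1 (by norm_num)
  have a3 := mono_bd ω κ h0 h1 k0 k1 0 2 (by norm_num)
  have a4 := mono_bd ω κ h0 h1 k0 k1 3 0 (by norm_num)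
  have a5 := mono_bd ω κ h0 h1 k0 k1 2 1 (by norm_num)
  have a6 := mono_bd ω κ h0 h1 k0 k1 1 2 (by norm_num)
  have a7 := mono_bd ω κ h0 h1 k0 k1 0 3 (by norm_num)
  simp only [pow_zero, one_mul, mul_one, pow_one] at a1 a2 a3 a4 a5 a6 a7
  rw [abs_le]
  constructor
  · linarith [a1.1, a2.1, a3.1, a4.1, a5.1, a6.1, a7.1]
  · linarith [a1.2, a2.2, a3.2, a4.2, a5.2, a6.2, a7.2]

theorem polyA (ω κ : ℝ) (h0 : 0 ≤ ω) (h1 : ω ≤ 1 / 256) (k0 : 0 ≤ κ) (k1 : κ ≤ 1 / 256) :
    |-(1 / 3) + (ω + κ) * (1 / 5) - (ω ^ 2 + ω * κ + κ ^ 2) * (1 / 7) +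
      (ω ^ 3 + ω ^ 2 * κ + ω * κ ^ 2 + κ ^ 3) * (1 / 9) -
      (ω ^ 4 + ω ^ 3 * κ + ω ^ 2 * κ ^ 2 + ω * κ ^ 3 + κ ^ 4) * (1 / 11)| ≤ 1 := by
  have a1 := mono_bd ω κ h0 h1 k0 k1 2 0 (by norm_num)
  have a2 := mono_bd ω κ h0 h1 k0 k1 1 1 (by norm_num)
  have a3 := mono_bd ω κ h0 h1 k0 k1 0 2 (by norm_num)
  have a4 := mono_bd ω κ h0 h1 k0 k1 3 0 (by norm_num)
  have a5 := mono_bd ω κ h0 h1 k0 k1 2 1 (by norm_num)
  have a6 := mono_bd ω κ h0 h1 k0 k1 1 2 (by norm_num)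
  have a7 := mono_bd ω κ h0 h1 k0 k1 0 3 (by norm_num)
  have a8 := mono_bd ω κ h0 h1 k0 k1 4 0 (by norm_num)
  have a9 := mono_bd ω κ h0 h1 k0 k1 3 1 (by norm_num)
  have a10 := mono_bd ω κ h0 h1 k0 k1 2 2 (by norm_num)
  have a11 := mono_bd ω κ h0 h1 k0 k1 1 3 (by norm_num)
  have a12 := mono_bd ω κ h0 h1 k0 k1 0 4 (by norm_num)
  simp only [pow_zero, one_mul, mul_one, pow_one] at a1 a2 a3 a4 a5 a6 a7 a8 a9 a10 a11 a12
  rw [abs_le]
  constructor
  · linarith [a1.2, a2.2, a3.2, a4.1, a5.1, a6.1, a7.1, a8.2, a9.2, a10.2, a11.2, a12.2]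
  · linarith [a1.1, a2.1, a3.1, a4.2, a5.2, a6.2, a7.2, a8.1, a9.1, a10.1, a11.1, a12.1]

theorem w_bd (z : ℕ) : |((z * z / 72057594037927936 : ℕ) : ℝ) / NN - ((z : ℝ) / NN) ^ 2| ≤ 1 / NN := by
  have h1 := div_bd (z * z) 72057594037927936 (by norm_num)
  push_cast at h1
  have e : ((z * z / 72057594037927936 : ℕ) : ℝ) / NN - ((z : ℝ) / NN) ^ 2 =
      (((z * z / 72057594037927936 : ℕ) : ℝ) - (z : ℝ) * z / 72057594037927936) / NN := by
    simp only [NN]
    ring
  rw [e, abs_div, abs_of_pos (by norm_num : (0 : ℝ) < NN)]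
  exact div_le_div_of_nonneg_right h1 (by norm_num)

theorem serL_sL (z : ℕ) (hz : (z : ℝ) ≤ NN / 32) :
    |((serL z : ℕ) : ℝ) - NN * sL ((z : ℝ) / NN)| ≤ 3 / 2 := by
  set w : ℕ := z * z / 72057594037927936 with hw
  set ζ : ℝ := (z : ℝ) / NN with hζ
  set ω : ℝ := (w : ℝ) / NN with hω
  have hNN : (0 : ℝ) < NN := by norm_num
  have hζ0 : 0 ≤ ζ := by positivity
  have hζ1 : ζ ≤ 1 / 32 := by
    rw [hζ, div_le_iff₀ hNN]
    linarith
  have hω0 : 0 ≤ ω := by positivity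
  have hwb := w_bd z
  rw [← hw, ← hζ, ← hω] at hwb
  have hw1 : (w : ℝ) ≤ NN / 256 := by
    have h1 : ((z * z / 72057594037927936 : ℕ) : ℝ) ≤ ((z * z : ℕ) : ℝ) / ((72057594037927936 : ℕ) : ℝ) :=
      Nat.cast_div_le
    rw [← hw] at h1
    push_cast at h1
    have h2 : (z : ℝ) * z / 72057594037927936 ≤ NN / 256 := by
      have h0 : (0 : ℝ) ≤ z := by positivity
      rw [div_le_iff₀ (by norm_num)]
      have : (z : ℝ) * z ≤ (NN / 32) * (NN / 32) := mul_le_mul hz hz h0 (by norm_num)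
      refine this.trans ?_
      norm_num [NN]
    linarith
  -- the Horner steps
  have s4 : |((8006399337547548 : ℕ) : ℝ) - NN * (1 / 9)| ≤ 3 := by
    rw [abs_le]; constructor <;> norm_num [NN]
  have s3 := horner_add w 8006399337547548 10293942005418276 (NN * (1 / 9)) (NN * (1 / 7)) hw1 s4
    (by rw [abs_le]; constructor <;> norm_num [NN])
  have s2 := horner_add w _ 14411518807585587 _ (NN * (1 / 5)) hw1 s3
    (by rw [abs_le]; constructor <;> norm_num [NN])
  have s1 := horner_add w _ 24019198012642645 _ (NN * (1 / 3)) hw1 s2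
    (by rw [abs_le]; constructor <;> norm_num [NN])
  have s0 := horner_add w _ 72057594037927936 _ NN hw1 s1
    (by rw [abs_le]; constructor <;> norm_num [NN])
  set A : ℕ := 72057594037927936 + w * (24019198012642645 + w * (14411518807585587 + w *
      (10293942005418276 + w * 8006399337547548 / 72057594037927936)
        / 72057594037927936) / 72057594037927936) / 72057594037927936 with hA
  have hser : serL z = 2 * z * A / 72057594037927936 := by
    rw [hA, hw]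
    rfl
  rw [hser]
  have h5 := div_bd (2 * z * A) 72057594037927936 (by norm_num)
  push_cast at h5
  -- the exact value
  set a : ℝ := NN + ω * (NN * (1 / 3) + ω * (NN * (1 / 5) + ω * (NN * (1 / 7) + ω * (NN * (1 / 9)))))
    with ha
  have hAa : |(A : ℝ) - a| ≤ 3 := s0
  clear_value A
  clear s0 s1 s2 s3 s4
  have e1 : |2 * (z : ℝ) * A / 72057594037927936 - 2 * ζ * a| ≤ 3 / 16 := by
    have e : 2 * (z : ℝ) * A / 72057594037927936 - 2 * ζ * a = 2 * ζ * ((A : ℝ) - a) := by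
      rw [hζ]
      simp only [NN]
      ring
    rw [e, abs_mul, abs_of_nonneg (by positivity)]
    calc 2 * ζ * |(A : ℝ) - a| ≤ 2 * (1 / 32) * 3 := by
          refine mul_le_mul (by linarith) hAa (abs_nonneg _) (by norm_num)
      _ = 3 / 16 := by norm_num
  have e2 : |2 * ζ * a - NN * sL ζ| ≤ 1 / 8 := by
    have hω1 : ω ≤ 1 / 256 := by
      rw [hω, div_le_iff₀ hNN]
      linarith
    have hq1 : ζ ^ 2 ≤ 1 / 256 := sq_bd ζ hζ0 (by linarith)
    have hq0 : 0 ≤ ζ ^ 2 := sq_nonneg _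
    set κ : ℝ := ζ ^ 2 with hκ
    have e : 2 * ζ * a - NN * sL ζ = 2 * ζ * (NN * (ω - κ)) * (1 / 3 + (ω + κ) * (1 / 5) +
        (ω ^ 2 + ω * κ + κ ^ 2) * (1 / 7) + (ω ^ 3 + ω ^ 2 * κ + ω * κ ^ 2 + κ ^ 3) * (1 / 9)) := by
      rw [ha]
      unfold sL
      rw [← hκ]
      ring
    rw [e, abs_mul, abs_mul (2 * ζ), abs_mul NN, abs_of_pos hNN,
      abs_of_nonneg (by positivity : 0 ≤ 2 * ζ)]
    have e3 : NN * |ω - κ| ≤ 1 := by
      have := mul_le_mul_of_nonneg_left hwb hNN.le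
      rwa [mul_one_div_cancel hNN.ne'] at this
    have hpoly : |1 / 3 + (ω + κ) * (1 / 5) +
        (ω ^ 2 + ω * κ + κ ^ 2) * (1 / 7) + (ω ^ 3 + ω ^ 2 * κ + ω * κ ^ 2 + κ ^ 3) * (1 / 9)| ≤ 1 := by
      exact polyL ω κ hω0 hω1 hq0 hq1
    calc 2 * ζ * (NN * |ω - κ|) * _ ≤ 2 * (1 / 32) * 1 * 1 := by
          refine mul_le_mul (mul_le_mul (by linarith) e3 (by positivity) (by norm_num)) hpoly
            (abs_nonneg _) (by norm_num)
      _ ≤ 1 / 8 := by norm_num
  rw [abs_le] at h5 e1 e2 ⊢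
  constructor <;> linarith [h5.1, h5.2, e1.1, e1.2, e2.1, e2.2]

theorem serA_sA (z : ℕ) (hz : (z : ℝ) ≤ NN / 16) :
    |((serA z : ℕ) : ℝ) - NN * sA ((z : ℝ) / NN)| ≤ 3 / 2 := by
  set w : ℕ := z * z / 72057594037927936 with hw
  set ζ : ℝ := (z : ℝ) / NN with hζ
  set ω : ℝ := (w : ℝ) / NN with hω
  have hNN : (0 : ℝ) < NN := by norm_num
  have hζ0 : 0 ≤ ζ := by positivity
  have hζ1 : ζ ≤ 1 / 16 := by
    rw [hζ, div_le_iff₀ hNN]
    linarith
  have hω0 : 0 ≤ ω := by positivity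
  have hwb := w_bd z
  rw [← hw, ← hζ, ← hω] at hwb
  have hw1 : (w : ℝ) ≤ NN / 256 := by
    have h1 : ((z * z / 72057594037927936 : ℕ) : ℝ) ≤ ((z * z : ℕ) : ℝ) / ((72057594037927936 : ℕ) : ℝ) :=
      Nat.cast_div_le
    rw [← hw] at h1
    push_cast at h1
    have h2 : (z : ℝ) * z / 72057594037927936 ≤ NN / 256 := by
      have h0 : (0 : ℝ) ≤ z := by positivity
      rw [div_le_iff₀ (by norm_num)]
      have : (z : ℝ) * z ≤ (NN / 16) * (NN / 16) := mul_le_mul hz hz h0 (by norm_num)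
      refine this.trans ?_
      norm_num [NN]
    linarith
  have hω1 : ω ≤ 1 / 256 := by
    rw [hω, div_le_iff₀ hNN]
    linarith
  have hle : ∀ C b : ℝ, 0 ≤ b → C ≤ NN → C - ω * b ≤ NN := by
    intro C b hb hC
    have := mul_nonneg hω0 hb
    linarith
  have hge : ∀ C b : ℝ, NN / 12 ≤ C → b ≤ NN → 0 ≤ C - ω * b := by
    intro C b hC hb
    have h1 : ω * b ≤ 1 / 256 * NN := by
      by_cases hb0 : 0 ≤ b
      · exact mul_le_mul hω1 hb hb0 (by norm_num)
      · have : ω * b ≤ 0 := mul_nonpos_of_nonneg_of_nonpos hω0 (le_of_lt (not_le.1 hb0))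
        have h2 : (0 : ℝ) ≤ 1 / 256 * NN := by norm_num
        linarith
    linarith
  -- the Horner steps
  have s5 : |((6550690367084357 : ℕ) : ℝ) - NN * (1 / 11)| ≤ 3 := by
    rw [abs_le]; constructor <;> norm_num [NN]
  have b5 : NN * (1 / 11) ≤ NN := by norm_num [NN]
  have b5' : (0 : ℝ) ≤ NN * (1 / 11) := by norm_num [NN]
  have s4 := horner_sub w 6550690367084357 8006399337547548 (NN * (1 / 11)) (NN * (1 / 9)) hw1 s5 b5
    (by rw [abs_le]; constructor <;> norm_num [NN]) (by norm_num [NN])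
  have b4 := hle (NN * (1 / 9)) _ b5' (by norm_num [NN])
  have b4' := hge (NN * (1 / 9)) _ (by norm_num [NN]) b5
  have s3 := horner_sub w _ 10293942005418276 _ (NN * (1 / 7)) hw1 s4 b4
    (by rw [abs_le]; constructor <;> norm_num [NN]) (by norm_num [NN])
  have b3 := hle (NN * (1 / 7)) _ b4' (by norm_num [NN])
  have b3' := hge (NN * (1 / 7)) _ (by norm_num [NN]) b4
  have s2 := horner_sub w _ 14411518807585587 _ (NN * (1 / 5)) hw1 s3 b3
    (by rw [abs_le]; constructor <;> norm_num [NN]) (by norm_num [NN])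
  have b2 := hle (NN * (1 / 5)) _ b3' (by norm_num [NN])
  have b2' := hge (NN * (1 / 5)) _ (by norm_num [NN]) b3
  have s1 := horner_sub w _ 24019198012642645 _ (NN * (1 / 3)) hw1 s2 b2
    (by rw [abs_le]; constructor <;> norm_num [NN]) (by norm_num [NN])
  have b1 := hle (NN * (1 / 3)) _ b2' (by norm_num [NN])
  have s0 := horner_sub w _ 72057594037927936 _ NN hw1 s1 b1
    (by rw [abs_le]; constructor <;> norm_num [NN]) (by norm_num [NN])
  set A : ℕ := 72057594037927936 - w * (24019198012642645 - w * (14411518807585587 - w *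
      (10293942005418276 - w * (8006399337547548 - w * 6550690367084357 / 72057594037927936)
        / 72057594037927936) / 72057594037927936) / 72057594037927936) / 72057594037927936 with hA
  have hser : serA z = z * A / 72057594037927936 := by
    rw [hA, hw]
    rfl
  rw [hser]
  have h5 := div_bd (z * A) 72057594037927936 (by norm_num)
  push_cast at h5
  set a : ℝ := NN - ω * (NN * (1 / 3) - ω * (NN * (1 / 5) - ω * (NN * (1 / 7) - ω * (NN * (1 / 9) -
    ω * (NN * (1 / 11)))))) with ha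
  have hAa : |(A : ℝ) - a| ≤ 3 := s0
  clear_value A
  clear s0 s1 s2 s3 s4
  have e1 : |(z : ℝ) * A / 72057594037927936 - ζ * a| ≤ 3 / 16 := by
    have e : (z : ℝ) * A / 72057594037927936 - ζ * a = ζ * ((A : ℝ) - a) := by
      rw [hζ]
      simp only [NN]
      ring
    rw [e, abs_mul, abs_of_nonneg hζ0]
    calc ζ * |(A : ℝ) - a| ≤ (1 / 16) * 3 := by
          refine mul_le_mul (by linarith) hAa (abs_nonneg _) (by norm_num)
      _ = 3 / 16 := by norm_num
  have e2 : |ζ * a - NN * sA ζ| ≤ 1 / 8 := by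
    have hq1 : ζ ^ 2 ≤ 1 / 256 := sq_bd ζ hζ0 (by linarith)
    have hq0 : 0 ≤ ζ ^ 2 := sq_nonneg _
    set κ : ℝ := ζ ^ 2 with hκ
    have e : ζ * a - NN * sA ζ = ζ * (NN * (ω - κ)) * (-(1 / 3) + (ω + κ) * (1 / 5) -
        (ω ^ 2 + ω * κ + κ ^ 2) * (1 / 7) + (ω ^ 3 + ω ^ 2 * κ + ω * κ ^ 2 + κ ^ 3) * (1 / 9) -
        (ω ^ 4 + ω ^ 3 * κ + ω ^ 2 * κ ^ 2 + ω * κ ^ 3 + κ ^ 4) * (1 / 11)) := by
      rw [ha]
      unfold sA
      rw [← hκ]
      ring
    rw [e, abs_mul, abs_mul, abs_mul, abs_of_pos hNN, abs_of_nonneg hζ0]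
    have e3 : NN * |ω - κ| ≤ 1 := by
      have := mul_le_mul_of_nonneg_left hwb hNN.le
      rwa [mul_one_div_cancel hNN.ne'] at this
    have hpoly : |-(1 / 3) + (ω + κ) * (1 / 5) -
        (ω ^ 2 + ω * κ + κ ^ 2) * (1 / 7) + (ω ^ 3 + ω ^ 2 * κ + ω * κ ^ 2 + κ ^ 3) * (1 / 9) -
        (ω ^ 4 + ω ^ 3 * κ + ω ^ 2 * κ ^ 2 + ω * κ ^ 3 + κ ^ 4) * (1 / 11)| ≤ 1 := by
      exact polyA ω κ hω0 hω1 hq0 hq1
    calc ζ * (NN * |ω - κ|) * _ ≤ (1 / 16) * 1 * 1 := by
          refine mul_le_mul (mul_le_mul (by linarith) e3 (by positivity) (by norm_num)) hpoly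
            (abs_nonneg _) (by norm_num)
      _ ≤ 1 / 8 := by norm_num
  rw [abs_le] at h5 e1 e2 ⊢
  constructor <;> linarith [h5.1, h5.2, e1.1, e1.2, e2.1, e2.2]

/-! ### from fractions -/

theorem serL_fL (z : ℕ) (hz : (z : ℝ) ≤ NN / 32) :
    |((serL z : ℕ) : ℝ) - NN * fL ((z : ℝ) / NN)| ≤ 2 := by
  have h1 := serL_sL z hz
  have h2 := fL_sL ((z : ℝ) / NN) (by positivity) (by
    rw [div_le_iff₀ (by norm_num)]
    linarith)
  rw [abs_le] at h1 h2 ⊢
  constructor <;> linarith [h1.1, h1.2, h2.1, h2.2]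

theorem serA_arctan (z : ℕ) (hz : (z : ℝ) ≤ NN / 16) :
    |((serA z : ℕ) : ℝ) - NN * Real.arctan ((z : ℝ) / NN)| ≤ 3 := by
  have h1 := serA_sA z hz
  have h2 := arctan_sA ((z : ℝ) / NN) (by positivity) (by
    rw [div_le_iff₀ (by norm_num)]
    linarith)
  rw [abs_le] at h1 h2 ⊢
  constructor <;> linarith [h1.1, h1.2, h2.1, h2.2]

theorem fL_lip (x y : ℝ) (hy : 0 ≤ y) (hyx : y ≤ x) (hx : x ≤ 1 / 32) :
    |fL x - fL y| ≤ 21 / 10 * (x - y) := by
  have h1 : 0 < 1 - x := by linarith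
  have h2 : 0 < 1 - y := by linarith
  have h3 : 0 < 1 + x := by linarith
  have h4 : 0 < 1 + y := by linarith
  have e : fL x - fL y = Real.log (((1 + x) * (1 - y)) / ((1 - x) * (1 + y))) := by
    unfold fL
    rw [Real.log_div (by positivity) (by positivity), Real.log_mul h3.ne' h2.ne',
      Real.log_mul h1.ne' h4.ne']
    ring
  have hden : 31 / 32 ≤ (1 - x) * (1 + y) := by nlinarith
  have hden0 : 0 < (1 - x) * (1 + y) := by positivity
  have ht1 : 1 ≤ ((1 + x) * (1 - y)) / ((1 - x) * (1 + y)) := by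
    rw [one_le_div hden0]
    nlinarith
  have hlog0 : 0 ≤ Real.log (((1 + x) * (1 - y)) / ((1 - x) * (1 + y))) := Real.log_nonneg ht1
  have hlog1 := Real.log_le_sub_one_of_pos (lt_of_lt_of_le one_pos ht1)
  have e2 : ((1 + x) * (1 - y)) / ((1 - x) * (1 + y)) - 1 = 2 * (x - y) / ((1 - x) * (1 + y)) := by
    field_simp
    ring
  have h5 : 2 * (x - y) / ((1 - x) * (1 + y)) ≤ 21 / 10 * (x - y) := by
    rw [div_le_iff₀ hden0]
    nlinarith [mul_nonneg (sub_nonneg.2 hyx) (sub_nonneg.2 hden)]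
  rw [e, abs_of_nonneg hlog0]
  linarith

theorem arctan_lip (x y : ℝ) : |Real.arctan x - Real.arctan y| ≤ |x - y| := by
  have h := Convex.norm_image_sub_le_of_norm_deriv_le (f := Real.arctan) (C := 1) (s := Set.univ)
    (x := y) (y := x) (fun x _ => Real.differentiableAt_arctan x) (fun x _ => ?_) convex_univ
    (Set.mem_univ _) (Set.mem_univ _)
  · simpa [Real.norm_eq_abs] using h
  · rw [Real.deriv_arctan, Real.norm_eq_abs, abs_of_nonneg (by positivity)]
    rw [div_le_one (by positivity)]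
    nlinarith [sq_nonneg x]

theorem frac_bd (a b : ℕ) (hb : 0 < b) :
    ((a * 72057594037927936 / b : ℕ) : ℝ) / NN ≤ (a : ℝ) / b ∧
      (a : ℝ) / b - 1 / NN ≤ ((a * 72057594037927936 / b : ℕ) : ℝ) / NN := by
  have hb' : (0 : ℝ) < b := by exact_mod_cast hb
  have h1 : ((a * 72057594037927936 / b : ℕ) : ℝ) ≤ ((a * 72057594037927936 : ℕ) : ℝ) / b :=
    Nat.cast_div_le
  have h2 := (abs_le.1 (div_bd (a * 72057594037927936) b hb)).1
  push_cast at h1 h2
  have hNN : (0 : ℝ) < NN := by norm_num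
  constructor
  · rw [div_le_iff₀ hNN]
    calc ((a * 72057594037927936 / b : ℕ) : ℝ) ≤ (a : ℝ) * 72057594037927936 / b := h1
      _ = (a : ℝ) / b * NN := by simp only [NN]; ring
  · rw [le_div_iff₀ hNN]
    have e : ((a : ℝ) / b - 1 / NN) * NN = (a : ℝ) * 72057594037927936 / b - 1 := by
      simp only [NN]
      ring
    rw [e]
    linarith

theorem serL_frac (a b : ℕ) (hb : 0 < b) (h : 32 * a ≤ b) :
    |((serL (a * 72057594037927936 / b) : ℕ) : ℝ) - NN * fL ((a : ℝ) / b)| ≤ 5 := by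
  obtain ⟨h1, h2⟩ := frac_bd a b hb
  set z : ℕ := a * 72057594037927936 / b with hz
  have hb' : (0 : ℝ) < b := by exact_mod_cast hb
  have hab : (a : ℝ) / b ≤ 1 / 32 := by
    rw [div_le_iff₀ hb']
    have : (32 : ℝ) * a ≤ b := by exact_mod_cast h
    linarith
  have hNN : (0 : ℝ) < NN := by norm_num
  have hzle : (z : ℝ) ≤ NN / 32 := by
    have := h1.trans hab
    rw [div_le_iff₀ hNN] at this
    linarith
  have h3 := serL_fL z hzle
  have h4 := fL_lip ((a : ℝ) / b) ((z : ℝ) / NN) (by positivity) h1 hab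
  have h5 : NN * (21 / 10 * ((a : ℝ) / b - (z : ℝ) / NN)) ≤ 21 / 10 := by
    have h6 : (a : ℝ) / b - (z : ℝ) / NN ≤ 1 / NN := by linarith
    have h7 := mul_le_mul_of_nonneg_left h6 hNN.le
    rw [mul_one_div_cancel hNN.ne'] at h7
    linarith
  have h6 : |NN * fL ((a : ℝ) / b) - NN * fL ((z : ℝ) / NN)| ≤ 21 / 10 := by
    rw [← mul_sub, abs_mul, abs_of_pos hNN]
    exact (mul_le_mul_of_nonneg_left h4 hNN.le).trans h5
  rw [abs_le] at h3 h6 ⊢
  constructor <;> linarith [h3.1, h3.2, h6.1, h6.2]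

theorem serA_frac (a b : ℕ) (hb : 0 < b) (h : 16 * a ≤ b) :
    |((serA (a * 72057594037927936 / b) : ℕ) : ℝ) - NN * Real.arctan ((a : ℝ) / b)| ≤ 5 := by
  obtain ⟨h1, h2⟩ := frac_bd a b hb
  set z : ℕ := a * 72057594037927936 / b with hz
  have hb' : (0 : ℝ) < b := by exact_mod_cast hb
  have hab : (a : ℝ) / b ≤ 1 / 16 := by
    rw [div_le_iff₀ hb']
    have : (16 : ℝ) * a ≤ b := by exact_mod_cast h
    linarith
  have hNN : (0 : ℝ) < NN := by norm_num
  have hzle : (z : ℝ) ≤ NN / 16 := by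
    have := h1.trans hab
    rw [div_le_iff₀ hNN] at this
    linarith
  have h3 := serA_arctan z hzle
  have h4 := arctan_lip ((a : ℝ) / b) ((z : ℝ) / NN)
  rw [abs_of_nonneg (sub_nonneg.2 h1)] at h4
  have h6 : |NN * Real.arctan ((a : ℝ) / b) - NN * Real.arctan ((z : ℝ) / NN)| ≤ 1 := by
    rw [← mul_sub, abs_mul, abs_of_pos hNN]
    have h6 : (a : ℝ) / b - (z : ℝ) / NN ≤ 1 / NN := by linarith
    have h7 := mul_le_mul_of_nonneg_left (h4.trans h6) hNN.le
    rwa [mul_one_div_cancel hNN.ne'] at h7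
  rw [abs_le] at h3 h6 ⊢
  constructor <;> linarith [h3.1, h3.2, h6.1, h6.2]

/-! ### the tables -/

theorem fL_div (a b : ℝ) (hb : 0 < b) (h1 : 0 < b + a) (h2 : 0 < b - a) :
    fL (a / b) = Real.log (b + a) - Real.log (b - a) := by
  unfold fL
  have e1 : 1 + a / b = (b + a) / b := by field_simp
  have e2 : 1 - a / b = (b - a) / b := by field_simp
  rw [e1, e2, Real.log_div h1.ne' hb.ne', Real.log_div h2.ne' hb.ne']
  ring

theorem tabL0_bd (j : ℕ) : |((tabL0 j : ℕ) : ℝ) - NN * (Real.log (16 + j) - Real.log 16)| ≤ 5 * j := by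
  induction j with
  | zero => simp [tabL0]
  | succ j ih =>
    have h1 := serL_frac 1 (33 + 2 * j) (by omega) (by omega)
    have e0 : tabL0 (j + 1) = tabL0 j + serL (1 * 72057594037927936 / (33 + 2 * j)) := by
      rw [one_mul]
      rfl
    have hj : (0 : ℝ) ≤ j := by positivity
    have e1 : fL (((1 : ℕ) : ℝ) / ((33 + 2 * j : ℕ) : ℝ)) = Real.log (16 + (j + 1)) - Real.log (16 + j) := by
      push_cast
      rw [fL_div 1 (33 + 2 * (j : ℝ)) (by positivity) (by positivity) (by linarith)]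
      have e2 : 33 + 2 * (j : ℝ) + 1 = 2 * (16 + (j + 1)) := by ring
      have e3 : 33 + 2 * (j : ℝ) - 1 = 2 * (16 + j) := by ring
      rw [e2, e3, Real.log_mul (by norm_num) (by positivity), Real.log_mul (by norm_num)
        (by positivity)]
      ring
    rw [e1] at h1
    rw [e0]
    push_cast at h1 ⊢
    rw [abs_le] at h1 ih ⊢
    constructor <;> linarith [h1.1, h1.2, ih.1, ih.2]

theorem arctan_step (k : ℕ) : Real.arctan ((k : ℝ) / 16) + Real.arctan (16 / (256 + k * (k + 1))) =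
    Real.arctan (((k : ℝ) + 1) / 16) := by
  have hk : (0 : ℝ) ≤ k := by positivity
  have hd : (0 : ℝ) < 256 + k * (k + 1) := by positivity
  have h1 : (k : ℝ) / 16 * (16 / (256 + k * (k + 1))) < 1 := by
    rw [div_mul_div_comm, div_lt_one (by positivity)]
    nlinarith
  rw [Real.arctan_add h1]
  congr 1
  have h2 : (1 : ℝ) - (k : ℝ) / 16 * (16 / (256 + k * (k + 1))) =
      (256 + k ^ 2) / (256 + k * (k + 1)) := by
    field_simp
    ring
  rw [h2]
  have h3 : (0 : ℝ) < 256 + k ^ 2 := by positivity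
  field_simp
  ring

theorem tabA0_bd (k : ℕ) : |((tabA0 k : ℕ) : ℝ) - NN * Real.arctan ((k : ℝ) / 16)| ≤ 5 * k := by
  induction k with
  | zero => simp [tabA0]
  | succ k ih =>
    have h1 := serA_frac 16 (256 + k * (k + 1)) (by omega) (by omega)
    have e0 : tabA0 (k + 1) = tabA0 k + serA (16 * 72057594037927936 / (256 + k * (k + 1))) := rfl
    have h2 := arctan_step k
    rw [e0]
    push_cast at h1 ⊢
    rw [← h2]
    rw [abs_le] at h1 ih ⊢
    constructor <;> linarith [h1.1, h1.2, ih.1, ih.2]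

theorem tabL_eq : ∀ j : Fin 17, tabL j = tabL0 j := by decide +kernel

theorem tabA_eq : ∀ j : Fin 17, tabA j = tabA0 j := by decide +kernel

theorem tabL_bd (j : ℕ) (hj : j ≤ 16) :
    |((tabL j : ℕ) : ℝ) - NN * (Real.log (16 + j) - Real.log 16)| ≤ 80 := by
  have h1 := tabL_eq ⟨j, by omega⟩
  simp only at h1
  rw [h1]
  refine (tabL0_bd j).trans ?_
  have : (j : ℝ) ≤ 16 := by exact_mod_cast hj
  linarith

theorem tabA_bd (k : ℕ) (hk : k ≤ 16) :
    |((tabA k : ℕ) : ℝ) - NN * Real.arctan ((k : ℝ) / 16)| ≤ 80 := by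
  have h1 := tabA_eq ⟨k, by omega⟩
  simp only at h1
  rw [h1]
  refine (tabA0_bd k).trans ?_
  have : (k : ℝ) ≤ 16 := by exact_mod_cast hk
  linarith

theorem log_two_bd : |(49946518145322851 : ℝ) - NN * Real.log 2| ≤ 80 := by
  have h1 := tabL0_bd 16
  have h2 : tabL0 16 = 49946518145322851 := by decide +kernel
  rw [h2] at h1
  push_cast at h1
  have e : Real.log (16 + 16) - Real.log 16 = Real.log 2 := by
    rw [show (16 : ℝ) + 16 = 2 * 16 by norm_num, Real.log_mul (by norm_num) (by norm_num)]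
    ring
  rw [e] at h1
  linarith

theorem pi_bd : |(113187804032455006 : ℝ) - NN * (Real.pi / 2)| ≤ 160 := by
  have h1 := tabA0_bd 16
  have h2 : 2 * tabA0 16 = 113187804032455006 := by decide +kernel
  have h3 : (2 : ℝ) * ((tabA0 16 : ℕ) : ℝ) = 113187804032455006 := by exact_mod_cast h2
  have e : Real.arctan (((16 : ℕ) : ℝ) / 16) = Real.pi / 4 := by
    rw [show ((16 : ℕ) : ℝ) / 16 = 1 by norm_num, Real.arctan_one]
  rw [e] at h1
  push_cast at h1
  rw [abs_le] at h1 ⊢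
  constructor <;> linarith [h1.1, h1.2]

/-! ### the main bounds -/

theorem logA_bd (m : ℕ) (h1 : 1 ≤ m) (h2 : m < 4294967296) :
    |((logA m : ℕ) : ℝ) - NN * Real.log m| ≤ 4096 := by
  set k : ℕ := Nat.log2 m with hk
  set p : ℕ := 2 ^ k with hp
  have hpm : p ≤ m := Nat.log2_self_le (by omega)
  have hmp : m < 2 * p := by
    have := Nat.lt_log2_self (n := m)
    rw [← hk, pow_succ] at this
    omega
  have hp0 : 0 < p := by positivity
  have hk31 : k ≤ 31 := by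
    have h3 : 2 ^ k < 2 ^ 32 := lt_of_le_of_lt hpm (by omega)
    have := (Nat.pow_lt_pow_iff_right (by norm_num : 1 < 2)).1 h3
    omega
  set j : ℕ := 16 * m / p with hj
  have hj1 : 16 ≤ j := by
    rw [hj, Nat.le_div_iff_mul_le hp0]
    omega
  have hj2 : j < 32 := by
    rw [hj, Nat.div_lt_iff_lt_mul hp0]
    omega
  have hjp : j * p ≤ 16 * m := Nat.div_mul_le_self _ _
  have hjp2 : 16 * m < (j + 1) * p := by
    have := Nat.lt_div_mul_add (a := 16 * m) hp0
    rw [← hj] at this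
    calc 16 * m < j * p + p := this
      _ = (j + 1) * p := by ring
  have hab : 32 * (16 * m - j * p) ≤ 16 * m + j * p := by
    have h3 : 16 * m - j * p ≤ p := by
      rw [Nat.sub_le_iff_le_add]
      have : (j + 1) * p = p + j * p := by ring
      omega
    have h4 : 16 * p ≤ j * p := Nat.mul_le_mul_right _ hj1
    omega
  have hb0 : 0 < 16 * m + j * p := by omega
  have hser := serL_frac (16 * m - j * p) (16 * m + j * p) hb0 hab
  have htab := tabL_bd (j - 16) (by omega)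
  have hlog2 := log_two_bd
  have e0 : logA m = k * 49946518145322851 + (tabL (j - 16) +
      serL ((16 * m - j * p) * 72057594037927936 / (16 * m + j * p))) := rfl
  rw [e0]
  have hmR : (0 : ℝ) < m := by exact_mod_cast (by omega : 0 < m)
  have hpR : (0 : ℝ) < p := by exact_mod_cast hp0
  have hjR : (0 : ℝ) < j := by exact_mod_cast (by omega : 0 < j)
  -- the argument of the series
  have e1 : fL (((16 * m - j * p : ℕ) : ℝ) / ((16 * m + j * p : ℕ) : ℝ)) =
      Real.log 16 + Real.log m - Real.log j - Real.log p := by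
    rw [Nat.cast_sub hjp]
    push_cast
    rw [fL_div _ _ (by positivity)
      (by
        have : (16 : ℝ) * m + j * p + (16 * m - j * p) = 32 * m := by ring
        rw [this]; positivity)
      (by
        have : (16 : ℝ) * m + j * p - (16 * m - j * p) = 2 * (j * p) := by ring
        rw [this]; positivity)]
    have a1 : (16 : ℝ) * m + j * p + (16 * m - j * p) = 2 * (16 * m) := by ring
    have a2 : (16 : ℝ) * m + j * p - (16 * m - j * p) = 2 * (j * p) := by ring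
    have l1 : Real.log (2 * (16 * (m : ℝ))) = Real.log 2 + (Real.log 16 + Real.log m) := by
      rw [Real.log_mul (by norm_num) (by positivity), Real.log_mul (by norm_num) hmR.ne']
    have l2 : Real.log (2 * ((j : ℝ) * p)) = Real.log 2 + (Real.log j + Real.log p) := by
      rw [Real.log_mul (by norm_num) (by positivity), Real.log_mul hjR.ne' hpR.ne']
    rw [a1, a2, l1, l2]
    ring
  have e2 : Real.log p = k * Real.log 2 := by
    rw [hp]
    push_cast
    rw [Real.log_pow]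
  have e3 : (16 : ℝ) + ((j - 16 : ℕ) : ℝ) = j := by
    rw [Nat.cast_sub hj1]
    push_cast
    ring
  rw [e1, e2] at hser
  rw [e3] at htab
  push_cast
  have h5 : |(k : ℝ) * 49946518145322851 - NN * (k * Real.log 2)| ≤ 31 * 80 := by
    have e4 : (k : ℝ) * 49946518145322851 - NN * (k * Real.log 2) =
        k * ((49946518145322851 : ℝ) - NN * Real.log 2) := by ring
    rw [e4, abs_mul, abs_of_nonneg (by positivity)]
    have : (k : ℝ) ≤ 31 := by exact_mod_cast hk31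
    exact mul_le_mul this hlog2 (abs_nonneg _) (by norm_num)
  rw [abs_le] at h5 hser htab ⊢
  constructor
  · nlinarith [h5.1, hser.1, htab.1]
  · nlinarith [h5.2, hser.2, htab.2]

theorem atA'_bd (p q : ℕ) (hq : 0 < q) (hpq : p ≤ q) :
    |((atA' p q (16 * p / q) : ℕ) : ℝ) - NN * Real.arctan ((p : ℝ) / q)| ≤ 85 := by
  set k : ℕ := 16 * p / q with hk
  have hk16 : k ≤ 16 := by
    have h1 : k * q ≤ 16 * q := (Nat.div_mul_le_self _ _).trans (by omega)
    exact Nat.le_of_mul_le_mul_right h1 hq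
  have hkq : k * q ≤ 16 * p := Nat.div_mul_le_self _ _
  have hkq2 : 16 * p < (k + 1) * q := by
    have := Nat.lt_div_mul_add (a := 16 * p) hq
    rw [← hk] at this
    calc 16 * p < k * q + q := this
      _ = (k + 1) * q := by ring
  have hab : 16 * (16 * p - k * q) ≤ 16 * q + k * p := by
    have h3 : 16 * p - k * q ≤ q := by
      rw [Nat.sub_le_iff_le_add]
      have : (k + 1) * q = q + k * q := by ring
      omega
    omega
  have hb0 : 0 < 16 * q + k * p := by omega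
  have hser := serA_frac (16 * p - k * q) (16 * q + k * p) hb0 hab
  have htab := tabA_bd k hk16
  have e0 : atA' p q k = tabA k +
      serA ((16 * p - k * q) * 72057594037927936 / (16 * q + k * p)) := rfl
  rw [e0]
  have hqR : (0 : ℝ) < q := by exact_mod_cast hq
  have hpR : (0 : ℝ) ≤ p := by positivity
  have hkR : (0 : ℝ) ≤ k := by positivity
  have hkR16 : (k : ℝ) ≤ 16 := by exact_mod_cast hk16
  have hbR : (0 : ℝ) < 16 * q + k * p := by positivity
  have hsub : (0 : ℝ) ≤ 16 * p - k * q := by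
    have : (k : ℝ) * q ≤ 16 * p := by exact_mod_cast hkq
    linarith
  have e1 : Real.arctan ((k : ℝ) / 16) +
      Real.arctan (((16 * p - k * q : ℕ) : ℝ) / ((16 * q + k * p : ℕ) : ℝ)) =
        Real.arctan ((p : ℝ) / q) := by
    rw [Nat.cast_sub hkq]
    push_cast
    have h1 : (k : ℝ) / 16 * ((16 * p - k * q) / (16 * q + k * p)) < 1 := by
      have h6 : ((16 : ℝ) * p - k * q) / (16 * q + k * p) < 1 := by
        rw [div_lt_one hbR]
        have h7 : (16 : ℝ) * p < (k + 1) * q := by exact_mod_cast hkq2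
        nlinarith [mul_nonneg hkR hpR]
      have h8 : (k : ℝ) / 16 ≤ 1 := by
        rw [div_le_one (by norm_num)]
        exact hkR16
      have h9 : 0 ≤ ((16 : ℝ) * p - k * q) / (16 * q + k * p) := div_nonneg hsub hbR.le
      calc (k : ℝ) / 16 * ((16 * p - k * q) / (16 * q + k * p))
          ≤ 1 * ((16 * p - k * q) / (16 * q + k * p)) := mul_le_mul_of_nonneg_right h8 h9
        _ < 1 := by rw [one_mul]; exact h6
    rw [Real.arctan_add h1]
    congr 1
    have h2 : (1 : ℝ) - (k : ℝ) / 16 * ((16 * p - k * q) / (16 * q + k * p)) =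
        (q * (256 + k ^ 2)) / (16 * (16 * q + k * p)) := by
      field_simp
      ring
    have h3 : (k : ℝ) / 16 + (16 * p - k * q) / (16 * q + k * p) =
        (p * (256 + k ^ 2)) / (16 * (16 * q + k * p)) := by
      field_simp
      ring
    rw [h2, h3]
    have h4 : (0 : ℝ) < 256 + k ^ 2 := by positivity
    field_simp
  rw [← e1]
  push_cast at htab hser ⊢
  rw [abs_le] at hser htab ⊢
  constructor <;> linarith [hser.1, hser.2, htab.1, htab.2]

theorem atA_bd (p q : ℕ) (hq : 0 < q) :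
    |((atA p q : ℕ) : ℝ) - NN * Real.arctan ((p : ℝ) / q)| ≤ 4096 := by
  by_cases hpq : p ≤ q
  · have e0 : atA p q = atA' p q (16 * p / q) := by
      unfold atA
      rw [Nat.ble_eq_true_of_le hpq, cond_true]
      simp only [Nat.mul_eq, ndiv_eq]
    rw [e0]
    exact (atA'_bd p q hq hpq).trans (by norm_num)
  · have hp : 0 < p := by omega
    have e0 : atA p q = 113187804032455006 - atA' q p (16 * q / p) := by
      unfold atA
      have : Nat.ble p q = false := by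
        rw [← Bool.not_eq_true, Nat.ble_eq]
        exact hpq
      rw [this, cond_false]
      simp only [Nat.sub_eq, Nat.mul_eq, ndiv_eq]
    rw [e0]
    have h1 := atA'_bd q p hp (by omega)
    have h2 := pi_bd
    have hqR : (0 : ℝ) < q := by exact_mod_cast hq
    have hpR : (0 : ℝ) < p := by exact_mod_cast hp
    have e1 : Real.arctan ((p : ℝ) / q) = Real.pi / 2 - Real.arctan ((q : ℝ) / p) := by
      rw [← Real.arctan_inv_of_pos (by positivity), inv_div]
    have h3 : Real.arctan ((q : ℝ) / p) ≤ Real.pi / 4 := by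
      rw [← Real.arctan_one]
      refine Real.arctan_mono ?_
      rw [div_le_one hpR]
      exact_mod_cast (by omega : q ≤ p)
    have h4 : atA' q p (16 * q / p) ≤ 113187804032455006 := by
      have h5 : ((atA' q p (16 * q / p) : ℕ) : ℝ) ≤ 113187804032455006 := by
        rw [abs_le] at h1 h2
        have h6 : NN * Real.arctan ((q : ℝ) / p) ≤ NN * (Real.pi / 4) :=
          mul_le_mul_of_nonneg_left h3 (by norm_num)
        have h7 : NN * (Real.pi / 4) + 1000 ≤ NN * (Real.pi / 2) := by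
          have := Real.pi_gt_three
          have h8 : (1000 : ℝ) ≤ NN * (3 / 4) := by norm_num [NN]
          have h9 : NN * (3 / 4) ≤ NN * (Real.pi / 4) :=
            mul_le_mul_of_nonneg_left (by linarith) (by norm_num)
          linarith
        linarith [h1.1, h1.2, h2.1, h2.2]
      exact_mod_cast h5
    rw [Nat.cast_sub h4, e1]
    push_cast
    rw [abs_le] at h1 h2 ⊢
    constructor <;> linarith [h1.1, h1.2, h2.1, h2.2]

end VD.M_P3a

namespace VD

/-- kernel-evaluable log and arctan: error <= 4096/2^56 of logA (m<2^32) and atA -/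
theorem mP3a : StP3a := by
  have e : ((2 : ℝ) ^ 56) = M_P3a.NN := by norm_num
  refine ⟨fun m h1 h2 => ?_, fun p q hq => ?_⟩
  · rw [e]
    exact M_P3a.logA_bd m h1 h2
  · rw [e]
    exact M_P3a.atA_bd p q hq

end VD
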